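import Mathlib

set_option autoImplicit false

namespace Pool.Agent.Results.MP_cfa383_al.NonMinimalFox

open MonoidAlgebra (single)

/-- The augmentation `ℤG → ℤ`: the ring homomorphism sending every group element to `1`. -/
noncomputable def aug (G : Type) [Group G] : MonoidAlgebra ℤ G →+* ℤ :=
  (MonoidAlgebra.lift ℤ ℤ G (1 : G →* ℤ)).toRingHom

/-- Finitely generated free chain data over `ℤG`. The module in degree `i` is the free left module
`C_i = (ℤG)^(rk i)` with its standard basis, `d i : C_{i+1} → C_i` is left `ℤG`-linear (it is the map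
`∂_{i+1}` of the text) and `d0 : C_0 → ℤ` is the map `∂_0`: it is additive and satisfies
`d0 (a • v) = aug a * d0 v`, that is, it is `ℤG`-linear for the trivial action on `ℤ`.
For a partial resolution of length `m` only the degrees `≤ m` matter. -/
structure ChainData (G : Type) [Group G] where
  rk : ℕ → ℕ
  d : (i : ℕ) → (Fin (rk (i + 1)) → MonoidAlgebra ℤ G) →ₗ[MonoidAlgebra ℤ G]
    (Fin (rk i) → MonoidAlgebra ℤ G)
  d0 : (Fin (rk 0) → MonoidAlgebra ℤ G) →ₛₗ[aug G] ℤ

/-- `cycles C i = ker ∂_i`, a submodule of `C_i`. -/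
noncomputable def cycles {G : Type} [Group G] (C : ChainData G) :
    (i : ℕ) → Submodule (MonoidAlgebra ℤ G) (Fin (C.rk i) → MonoidAlgebra ℤ G)
  | 0 => LinearMap.ker C.d0
  | i + 1 => LinearMap.ker (C.d i)

/-- `C` is (through degree `m`) a partial resolution of length `m`:
`C_m → ⋯ → C_0 → ℤ → 0` is exact at `C_0, …, C_{m-1}` and at `ℤ`. -/
structure IsPartialResolution {G : Type} [Group G] (C : ChainData G) (m : ℕ) : Prop where
  surj : Function.Surjective C.d0
  exact : ∀ i, i < m → LinearMap.range (C.d i) = cycles C i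

/-- The directed Euler characteristic `(-1)^m χ(C) = ∑_{i ≤ m} (-1)^(i+m) rk C_i`. -/
def dirEuler {G : Type} [Group G] (C : ChainData G) (m : ℕ) : ℤ :=
  ∑ i ∈ Finset.range (m + 1), (-1) ^ (i + m) * (C.rk i : ℤ)

/-- The `m`-th Fox ideal: the two-sided ideal of `ℤG` generated by all coordinates of all
elements of `ker ∂_m`. -/
noncomputable def foxIdeal {G : Type} [Group G] (C : ChainData G) (m : ℕ) :
    TwoSidedIdeal (MonoidAlgebra ℤ G) :=
  TwoSidedIdeal.span {a | ∃ v ∈ cycles C m, ∃ j, v j = a}

/-! ### Partial resolutions of length one from generating tuples -/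

section gen

variable {G : Type} [Group G]

lemma aug_single (g : G) (k : ℤ) : aug G (single g k) = k := by
  simp [aug, MonoidAlgebra.lift_single]

/-- the map `v ↦ ∑ v_j (x_j - 1)` -/
noncomputable def genMap {n : ℕ} (x : Fin n → G) :
    (Fin n → MonoidAlgebra ℤ G) →ₗ[MonoidAlgebra ℤ G] MonoidAlgebra ℤ G where
  toFun v := ∑ j, v j * (single (x j) 1 - 1)
  map_add' v w := by simp [add_mul, Finset.sum_add_distrib]
  map_smul' a v := by simp [mul_assoc, Finset.mul_sum]

noncomputable def augMap (G : Type) [Group G] : (Fin 1 → MonoidAlgebra ℤ G) →ₛₗ[aug G] ℤ where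
  toFun v := aug G (v 0)
  map_add' v w := by simp
  map_smul' a v := by simp

/-- The chain data attached to a tuple of group elements. -/
noncomputable def genData {n : ℕ} (x : Fin n → G) : ChainData G where
  rk := fun i => match i with
    | 0 => 1
    | 1 => n
    | _ => 0
  d := fun i => match i with
    | 0 => LinearMap.pi (fun _ : Fin 1 => genMap x)
    | _ + 1 => 0
  d0 := augMap G

lemma mem_range_genMap {n : ℕ} (x : Fin n → G) (hx : Subgroup.closure (Set.range x) = ⊤) (g : G) :
    (single g 1 - 1 : MonoidAlgebra ℤ G) ∈ LinearMap.range (genMap x) := by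
  have hg : g ∈ Subgroup.closure (Set.range x) := by rw [hx]; trivial
  induction hg using Subgroup.closure_induction with
  | mem g hg =>
    obtain ⟨j, rfl⟩ := hg
    refine ⟨Pi.single j 1, ?_⟩
    simp only [genMap, LinearMap.coe_mk, AddHom.coe_mk]
    rw [Finset.sum_eq_single j]
    · simp
    · intro i _ hij
      simp [Pi.single_eq_of_ne hij]
    · simp
  | one => 
    have : (single (1 : G) (1 : ℤ) - 1 : MonoidAlgebra ℤ G) = 0 := by
      rw [MonoidAlgebra.one_def]; simp
    rw [this]; exact Submodule.zero_mem _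
  | mul g h _ _ hg hh =>
    have : (single (g * h) (1 : ℤ) - 1 : MonoidAlgebra ℤ G) =
        single g (1 : ℤ) • (single h (1 : ℤ) - 1) + (single g (1 : ℤ) - 1) := by
      rw [smul_eq_mul, mul_sub, MonoidAlgebra.single_mul_single]
      simp
    rw [this]
    exact Submodule.add_mem _ (Submodule.smul_mem _ _ hh) hg
  | inv g _ hg =>
    have : (single (g⁻¹) (1 : ℤ) - 1 : MonoidAlgebra ℤ G) =
        -(single (g⁻¹) (1 : ℤ) • (single g (1 : ℤ) - 1)) := by
      rw [smul_eq_mul, mul_sub, MonoidAlgebra.single_mul_single, MonoidAlgebra.one_def]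
      simp
    rw [this]
    exact Submodule.neg_mem _ (Submodule.smul_mem _ _ hg)

lemma mem_range_of_aug {n : ℕ} (x : Fin n → G) (hx : Subgroup.closure (Set.range x) = ⊤)
    (a : MonoidAlgebra ℤ G) :
    a - single 1 (aug G a) ∈ LinearMap.range (genMap x) := by
  induction a using MonoidAlgebra.induction_linear with
  | zero => simp
  | add f g hf hg =>
    have : f + g - single 1 (aug G (f + g)) = (f - single 1 (aug G f)) + (g - single 1 (aug G g)) := by
      rw [map_add, MonoidAlgebra.single_add]; abel
    rw [this]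
    exact Submodule.add_mem _ hf hg
  | single g k =>
    have : (single g k - single 1 (aug G (single g k)) : MonoidAlgebra ℤ G) =
        (single 1 k : MonoidAlgebra ℤ G) • (single g 1 - 1) := by
      rw [aug_single, smul_eq_mul, mul_sub, MonoidAlgebra.single_mul_single]
      simp
    rw [this]
    exact Submodule.smul_mem _ _ (mem_range_genMap x hx g)

lemma genMap_aug {n : ℕ} (x : Fin n → G) (v : Fin n → MonoidAlgebra ℤ G) :
    aug G (genMap x v) = 0 := by
  simp [genMap, aug_single]

lemma genData_isPartialResolution {n : ℕ} (x : Fin n → G)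
    (hx : Subgroup.closure (Set.range x) = ⊤) : IsPartialResolution (genData x) 1 := by
  constructor
  · intro k
    refine ⟨fun _ => single 1 k, ?_⟩
    change aug G (single 1 k) = k
    exact aug_single _ _
  · intro i hi
    obtain rfl : i = 0 := by omega
    ext v
    change v ∈ LinearMap.range (LinearMap.pi (fun _ : Fin 1 => genMap x)) ↔
      aug G (v (0 : Fin 1)) = 0
    constructor
    · rintro ⟨w, rfl⟩
      exact genMap_aug x w
    · intro h
      have := mem_range_of_aug x hx (v (0 : Fin 1))
      rw [h] at this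
      simp only [MonoidAlgebra.single_zero, sub_zero] at this
      obtain ⟨w, hw⟩ := this
      refine ⟨w, ?_⟩
      funext j
      have hj : j = (0 : Fin 1) := Subsingleton.elim (α := Fin 1) _ _
      rw [hj]
      exact hw

lemma genData_mem_cycles {n : ℕ} (x : Fin n → G) (v : Fin n → MonoidAlgebra ℤ G) :
    v ∈ cycles (genData x) 1 ↔ genMap x v = 0 := by
  change (LinearMap.pi (fun _ : Fin 1 => genMap x)) v = 0 ↔ _
  constructor
  · intro h
    exact congrFun h 0
  · intro h
    funext j
    exact h

lemma genData_dirEuler {n : ℕ} (x : Fin n → G) : dirEuler (genData x) 1 = n - 1 := by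
  simp [dirEuler, Finset.sum_range_succ, genData]
  ring

end gen

/-! ### The affine group over a ring and the vanishing criterion -/

/-- The group `S^n ⋊ Sˣ`. -/
structure Aff (S : Type) [Ring S] (n : ℕ) where
  m : Fin n → S
  u : Sˣ

namespace Aff

variable {S : Type} [Ring S] {n : ℕ}

@[ext] lemma ext' {a b : Aff S n} (h : a.m = b.m) (h' : a.u = b.u) : a = b := by
  cases a; cases b; simp_all

instance : Mul (Aff S n) := ⟨fun a b => ⟨a.m + (a.u : S) • b.m, a.u * b.u⟩⟩
instance : One (Aff S n) := ⟨⟨0, 1⟩⟩
instance : Inv (Aff S n) := ⟨fun a => ⟨-(((a.u⁻¹ : Sˣ) : S) • a.m), a.u⁻¹⟩⟩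

@[simp] lemma mul_m (a b : Aff S n) : (a * b).m = a.m + (a.u : S) • b.m := rfl
@[simp] lemma mul_u (a b : Aff S n) : (a * b).u = a.u * b.u := rfl
@[simp] lemma one_m : (1 : Aff S n).m = 0 := rfl
@[simp] lemma one_u : (1 : Aff S n).u = 1 := rfl
@[simp] lemma inv_m (a : Aff S n) : (a⁻¹).m = -(((a.u⁻¹ : Sˣ) : S) • a.m) := rfl
@[simp] lemma inv_u (a : Aff S n) : (a⁻¹).u = a.u⁻¹ := rfl

instance : Group (Aff S n) := Group.ofLeftAxioms
  (by
    intro a b c
    apply ext'
    · simp [mul_smul, smul_add, add_assoc]
    · simp [mul_assoc])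
  (by
    intro a
    apply ext'
    · simp
    · simp)
  (by
    intro a
    apply ext'
    · simp
    · simp)

/-- projection to the units -/
def uHom : Aff S n →* S where
  toFun a := (a.u : S)
  map_one' := rfl
  map_mul' _ _ := rfl

/-- the translation by `m` -/
def tr (m : Fin n → S) : Aff S n := ⟨m, 1⟩

@[simp] lemma tr_m (m : Fin n → S) : (tr m).m = m := rfl
@[simp] lemma tr_u (m : Fin n → S) : (tr m).u = 1 := rfl

lemma tr_mul_tr (m m' : Fin n → S) : tr m * tr m' = tr (m + m') := by
  apply ext' <;> simp

lemma conj_tr (t : Aff S n) (m : Fin n → S) :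
    t * tr m * t⁻¹ * (t⁻¹ * tr m * t) = tr (((t.u : S) + ((t.u⁻¹ : Sˣ) : S)) • m) := by
  apply ext'
  · simp [smul_smul, add_smul]
  · simp

end Aff

section vanish

variable {G : Type} [Group G] {S : Type} [Ring S] {n : ℕ}

/-- The ring homomorphism `ℤG → S` attached to a homomorphism to the affine group. -/
noncomputable def Th (Φ : G →* Aff S n) : MonoidAlgebra ℤ G →+* S :=
  (MonoidAlgebra.lift ℤ S G (Aff.uHom.comp Φ)).toRingHom

lemma Th_single (Φ : G →* Aff S n) (g : G) (k : ℤ) : Th Φ (single g k) = k • ((Φ g).u : S) := by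
  simp [Th, MonoidAlgebra.lift_single, Aff.uHom]

/-- additive extension of the translation part -/
noncomputable def Der (Φ : G →* Aff S n) : MonoidAlgebra ℤ G →+ (Fin n → S) :=
  MonoidAlgebra.liftNC ((Int.castRingHom (Fin n → S)).toAddMonoidHom) (fun g => (Φ g).m)

lemma Der_single (Φ : G →* Aff S n) (g : G) (k : ℤ) : Der Φ (single g k) = k • (Φ g).m := by
  simp [Der, MonoidAlgebra.liftNC_single]

lemma Der_mul (Φ : G →* Aff S n) (a : MonoidAlgebra ℤ G) (g : G) :
    Der Φ (a * (single g 1 - 1)) = Th Φ a • (Φ g).m := by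
  induction a using MonoidAlgebra.induction_linear with
  | zero => simp
  | add f h hf hh => rw [add_mul, map_add, hf, hh, map_add, add_smul]
  | single h k =>
    rw [mul_sub, mul_one, MonoidAlgebra.single_mul_single, map_sub, Der_single, Der_single,
      Th_single, map_mul, Aff.mul_m, smul_add, smul_assoc, mul_one, add_sub_cancel_left]

lemma Th_eq_zero (Φ : G →* Aff S n) (x : Fin n → G) (hΦ : ∀ j, (Φ (x j)).m = Pi.single j 1)
    (v : Fin n → MonoidAlgebra ℤ G) (hv : genMap x v = 0) (j : Fin n) : Th Φ (v j) = 0 := by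
  have h1 : Der Φ (genMap x v) = fun j => Th Φ (v j) := by
    simp only [genMap, LinearMap.coe_mk, AddHom.coe_mk, map_sum, Der_mul, hΦ]
    funext i
    rw [Finset.sum_apply, Finset.sum_eq_single i]
    · simp
    · intro b _ hb
      simp [Pi.single_eq_of_ne' hb]
    · simp
  rw [hv, map_zero] at h1
  exact (congrFun h1 j).symm

lemma foxIdeal_le_ker (Φ : G →* Aff S n) (x : Fin n → G)
    (hΦ : ∀ j, (Φ (x j)).m = Pi.single j 1) :
    foxIdeal (genData x) 1 ≤ TwoSidedIdeal.ker (Th Φ) := by
  rw [foxIdeal, TwoSidedIdeal.span_le]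
  rintro a ⟨v, hv, j, rfl⟩
  exact (TwoSidedIdeal.mem_ker _).2 (Th_eq_zero Φ x hΦ v ((genData_mem_cycles x v).1 hv) j)

end vanish


/-! ### Lower bound for the directed Euler characteristic in length one -/

section lower

variable {G : Type} [Group G] {F : Type} [Field F] {n : ℕ}

/-- augmentation to a field -/
noncomputable def augF (G : Type) [Group G] (F : Type) [Field F] : MonoidAlgebra ℤ G →+* F :=
  (Int.castRingHom F).comp (aug G)

lemma augF_apply (a : MonoidAlgebra ℤ G) : augF G F a = ((aug G a : ℤ) : F) := rfl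

/-- additive extension of an additive character tuple -/
noncomputable def Char (ψ : G →* Multiplicative (Fin n → F)) :
    MonoidAlgebra ℤ G →+ (Fin n → F) :=
  MonoidAlgebra.liftNC ((Int.castRingHom (Fin n → F)).toAddMonoidHom)
    (fun g => Multiplicative.toAdd (ψ g))

lemma Char_single (ψ : G →* Multiplicative (Fin n → F)) (g : G) (k : ℤ) :
    Char ψ (single g k) = k • Multiplicative.toAdd (ψ g) := by
  simp [Char, MonoidAlgebra.liftNC_single]

lemma Char_mul (ψ : G →* Multiplicative (Fin n → F)) (a b : MonoidAlgebra ℤ G) :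
    Char ψ (a * b) = aug G a • Char ψ b + aug G b • Char ψ a := by
  induction a using MonoidAlgebra.induction_linear with
  | zero => simp
  | add f h hf hh =>
    rw [add_mul, map_add, hf, hh, map_add, add_smul, map_add, smul_add]; abel
  | single h k =>
    induction b using MonoidAlgebra.induction_linear with
    | zero => simp
    | add f h hf hh =>
      rw [mul_add, map_add, hf, hh, map_add (Char ψ), map_add (aug G), add_smul, smul_add]; abel
    | single g l =>
      rw [MonoidAlgebra.single_mul_single, Char_single, Char_single, Char_single, aug_single,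
        aug_single, map_mul, toAdd_mul, smul_add, ← mul_smul, ← mul_smul, mul_comm l k]
      abel

/-- a `ℤG`-linear lift `C_0 → ℤG` of `∂_0` -/
noncomputable def sMap (C : ChainData G) (v : Fin (C.rk 0) → MonoidAlgebra ℤ G) :
    MonoidAlgebra ℤ G :=
  ∑ j, v j * single 1 (C.d0 (Pi.single j 1))

lemma sMap_add (C : ChainData G) (v w : Fin (C.rk 0) → MonoidAlgebra ℤ G) :
    sMap C (v + w) = sMap C v + sMap C w := by
  simp [sMap, add_mul, Finset.sum_add_distrib]

lemma sMap_smul (C : ChainData G) (a : MonoidAlgebra ℤ G)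
    (v : Fin (C.rk 0) → MonoidAlgebra ℤ G) :
    sMap C (a • v) = a * sMap C v := by
  simp [sMap, mul_assoc, Finset.mul_sum]

lemma pi_decomp {k : ℕ} (v : Fin k → MonoidAlgebra ℤ G) :
    v = ∑ j, v j • (Pi.single j 1 : Fin k → MonoidAlgebra ℤ G) := by
  funext i
  rw [Finset.sum_apply, Finset.sum_eq_single i]
  · simp
  · intro b _ hb
    simp [Pi.single_eq_of_ne' hb]
  · simp

lemma d0_eq (C : ChainData G) (v : Fin (C.rk 0) → MonoidAlgebra ℤ G) :
    C.d0 v = ∑ j, aug G (v j) * C.d0 (Pi.single j 1) := by
  conv_lhs => rw [pi_decomp v, map_sum]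
  refine Finset.sum_congr rfl fun j _ => ?_
  rw [LinearMap.map_smulₛₗ, smul_eq_mul]

lemma aug_sMap (C : ChainData G) (v : Fin (C.rk 0) → MonoidAlgebra ℤ G) :
    aug G (sMap C v) = C.d0 v := by
  rw [d0_eq, sMap, map_sum]
  refine Finset.sum_congr rfl fun j _ => ?_
  rw [map_mul, aug_single]

theorem lower_bound (C : ChainData G) (hC : IsPartialResolution C 1)
    (ψ : G →* Multiplicative (Fin n → F)) (x : Fin n → G)
    (hψ : ∀ j, Multiplicative.toAdd (ψ (x j)) = Pi.single j 1) :
    (n : ℤ) - 1 ≤ dirEuler C 1 := by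
  obtain ⟨p, hp⟩ := hC.surj 1
  have hex := hC.exact 0 (by norm_num)
  -- the linear map
  let bas : Fin (C.rk 1) → (Fin (C.rk 0) → MonoidAlgebra ℤ G) := fun k => C.d 0 (Pi.single k 1)
  let L : ((Fin n → F) × (Fin (C.rk 0) → F)) →ₗ[F] ((Fin (C.rk 1) → F) × F) :=
    { toFun := fun cf => (fun k => (∑ i, cf.1 i * Char ψ (sMap C (bas k)) i) +
          ∑ j, augF G F (bas k j) * cf.2 j, ∑ j, augF G F (p j) * cf.2 j)
      map_add' := by
        intro a b
        ext k
        · simp only [Prod.fst_add, Prod.snd_add, Pi.add_apply, add_mul, mul_add,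
            Finset.sum_add_distrib]
          ring
        · simp only [Prod.snd_add, Pi.add_apply, mul_add,
            Finset.sum_add_distrib]
      map_smul' := by
        intro a b
        ext k
        · simp only [Prod.smul_fst, Prod.smul_snd, Pi.smul_apply, smul_eq_mul, RingHom.id_apply,
            mul_add, Finset.mul_sum]
          congr 1
          · refine Finset.sum_congr rfl fun j _ => ?_
            ring
          · refine Finset.sum_congr rfl fun j _ => ?_
            ring
        · simp only [Prod.smul_snd, Pi.smul_apply, smul_eq_mul, RingHom.id_apply,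
            Finset.mul_sum]
          refine Finset.sum_congr rfl fun j _ => ?_
          ring }
  have hL : Function.Injective L := by
    rw [injective_iff_map_eq_zero]
    rintro ⟨c, f⟩ h
    have h1 : ∀ k, (∑ i, c i * Char ψ (sMap C (bas k)) i) +
          ∑ j, augF G F (bas k j) * f j = 0 := fun k => congrFun (congrArg Prod.fst h) k
    have h2 : ∑ j, augF G F (p j) * f j = 0 := congrArg Prod.snd h
    -- extend to all elements of the kernel of d0
    have key : ∀ u : Fin (C.rk 0) → MonoidAlgebra ℤ G, C.d0 u = 0 →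
        (∑ i, c i * Char ψ (sMap C u) i) + ∑ j, augF G F (u j) * f j = 0 := by
      intro u hu
      have hu' : u ∈ LinearMap.range (C.d 0) := by
        rw [hex]; exact hu
      obtain ⟨w, rfl⟩ := hu'
      have hw : C.d 0 w = ∑ k, w k • bas k := by
        conv_lhs => rw [pi_decomp w, map_sum]
        refine Finset.sum_congr rfl fun j _ => ?_
        rw [LinearMap.map_smul]
      rw [hw]
      clear hu hw
      have hb : ∀ k, C.d0 (bas k) = 0 := by
        intro k
        have : bas k ∈ LinearMap.range (C.d 0) := ⟨_, rfl⟩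
        rw [hex] at this
        exact this
      have hgen : ∀ s : Finset (Fin (C.rk 1)),
          (∑ i, c i * Char ψ (sMap C (∑ k ∈ s, w k • bas k)) i) +
            ∑ j, augF G F ((∑ k ∈ s, w k • bas k) j) * f j = 0 := by
        intro s
        induction s using Finset.induction_on with
        | empty => simp [sMap]
        | insert k s hk ih =>
          rw [Finset.sum_insert hk, sMap_add, sMap_smul, map_add, Char_mul, aug_sMap, hb k]
          simp only [zero_smul, add_zero, Pi.add_apply, Pi.smul_apply, map_add, smul_eq_mul,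
            map_mul, mul_add, add_mul, Finset.sum_add_distrib, zsmul_eq_mul] at ih ⊢
          have e1 : ∑ i, c i * ((aug G (w k) : F) * Char ψ (sMap C (bas k)) i) +
              ∑ j, augF G F (w k) * augF G F (bas k j) * f j = 0 := by
            have := h1 k
            have h3 := congrArg (fun t => (aug G (w k) : F) * t) this
            simp only [mul_zero, mul_add, Finset.mul_sum] at h3
            rw [← h3]
            congr 1
            · refine Finset.sum_congr rfl fun j _ => ?_
              ring
            · refine Finset.sum_congr rfl fun j _ => ?_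
              rw [augF_apply (F := F) (w k)]
              ring
          linear_combination e1 + ih
      exact hgen Finset.univ
    have hc : c = 0 := by
      funext j
      have := key ((single (x j) 1 - 1 : MonoidAlgebra ℤ G) • p) (by
        rw [LinearMap.map_smulₛₗ, map_sub, aug_single]; simp)
      rw [sMap_smul, Char_mul, aug_sMap, hp] at this
      simp only [map_sub, aug_single, map_one, sub_self, zero_smul, zero_add, one_smul] at this
      have h5 : Char ψ (1 : MonoidAlgebra ℤ G) = 0 := by
        rw [MonoidAlgebra.one_def, Char_single]; simp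
      rw [Char_single, h5, sub_zero, one_smul, hψ] at this
      have h6 : ∑ i, augF G F (((single (x j) 1 - 1 : MonoidAlgebra ℤ G) • p) i) * f i = 0 := by
        refine Finset.sum_eq_zero fun i _ => ?_
        simp [augF_apply, aug_single]
      rw [h6, add_zero, Finset.sum_eq_single j] at this
      · simpa using this
      · intro b _ hb
        simp [Pi.single_eq_of_ne hb]
      · simp
    have hf : f = 0 := by
      funext j
      -- use u = e_j - d0(e_j) p
      have hk := key (Pi.single j 1 - (single 1 (C.d0 (Pi.single j 1)) : MonoidAlgebra ℤ G) • p) (by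
        rw [map_sub, LinearMap.map_smulₛₗ, aug_single, hp]; simp)
      rw [hc] at hk
      simp only [Pi.zero_apply, zero_mul, Finset.sum_const_zero, zero_add, Pi.sub_apply, map_sub,
        sub_mul, Finset.sum_sub_distrib, Pi.smul_apply, smul_eq_mul, map_mul] at hk
      have h7 : ∑ i, augF G F (single 1 (C.d0 (Pi.single j 1))) * augF G F (p i) * f i = 0 := by
        have h3 := congrArg (fun t => augF G F (single 1 (C.d0 (Pi.single j 1))) * t) h2
        simp only [mul_zero, Finset.mul_sum] at h3
        rw [← h3]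
        refine Finset.sum_congr rfl fun j _ => ?_
        ring
      rw [h7, sub_zero, Finset.sum_eq_single j] at hk
      · simpa using hk
      · intro b _ hb
        simp [Pi.single_eq_of_ne hb]
      · simp
    rw [hc, hf]; rfl
  have hdim := LinearMap.finrank_le_finrank_of_injective hL
  simp only [Module.finrank_prod, Module.finrank_fin_fun, Module.finrank_self] at hdim
  have : dirEuler C 1 = (C.rk 1 : ℤ) - C.rk 0 := by
    simp [dirEuler, Finset.sum_range_succ]
    ring
  rw [this]
  have : (n : ℤ) + C.rk 0 ≤ C.rk 1 + 1 := by exact_mod_cast hdim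
  linarith

end lower

/-! ### Non-finite matrix rings -/

section ring

/-- The endomorphism ring of the abelian group of functions `List Bool → ℤ`. -/
abbrev S0 : Type := Module.End ℤ (List Bool → ℤ)

/-- the two complementary injections -/
def al (b : Bool) : S0 where
  toFun f := fun l => match l with
    | [] => 0
    | c :: l' => if c = b then f l' else 0
  map_add' f g := by
    funext l
    cases l with
    | nil => simp
    | cons c l' =>
      by_cases h : c = b <;> simp [h]
  map_smul' k f := by
    funext l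
    cases l with
    | nil => simp
    | cons c l' =>
      by_cases h : c = b <;> simp [h]

/-- the two complementary projections -/
def be (b : Bool) : S0 where
  toFun f := fun l => f (b :: l)
  map_add' _ _ := rfl
  map_smul' _ _ := rfl

lemma be_al (b c : Bool) : be b * al c = if b = c then 1 else 0 := by
  apply LinearMap.ext
  intro f
  funext l
  by_cases h : b = c
  · simp [be, al, h]
  · simp [be, al, h]

abbrev R0 : Type := Matrix (Fin 2) (Fin 2) S0

/-- an invertible matrix with `U a + (U a)⁻¹ = diag(a, a)` -/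
def U (a : S0) : R0ˣ where
  val := !![a, 1; -1, 0]
  inv := !![0, -1; 1, a]
  val_inv := by
    rw [Matrix.mul_fin_two]
    simp [Matrix.one_fin_two]
  inv_val := by
    rw [Matrix.mul_fin_two]
    simp [Matrix.one_fin_two]

lemma U_add (a : S0) : ((U a : R0ˣ) : R0) + (((U a)⁻¹ : R0ˣ) : R0) = !![a, 0; 0, a] := by
  change !![a, 1; -1, 0] + !![0, -1; 1, a] = _
  ext i j
  fin_cases i <;> fin_cases j <;> simp

lemma U_mul (a b : S0) :
    (((U b : R0ˣ) : R0) + (((U b)⁻¹ : R0ˣ) : R0)) *
      (((U a : R0ˣ) : R0) + (((U a)⁻¹ : R0ˣ) : R0)) = !![b * a, 0; 0, b * a] := by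
  rw [U_add, U_add, Matrix.mul_fin_two]
  simp

lemma U_be_al (b c : Bool) :
    (((U (be b) : R0ˣ) : R0) + (((U (be b))⁻¹ : R0ˣ) : R0)) *
      (((U (al c) : R0ˣ) : R0) + (((U (al c))⁻¹ : R0ˣ) : R0)) = if b = c then 1 else 0 := by
  rw [U_mul, be_al]
  split_ifs
  · rw [Matrix.one_fin_two]
  · ext i j
    fin_cases i <;> fin_cases j <;> simp

end ring

/-! ### The group -/

/-- `(t x t⁻¹)(t⁻¹ x t)` -/
def cj {H : Type} [Group H] (t x : H) : H := t * x * t⁻¹ * (t⁻¹ * x * t)

lemma map_cj {H K : Type} [Group H] [Group K] (f : H →* K) (t x : H) :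
    f (cj t x) = cj (f t) (f x) := by
  simp [cj]

/-- the word `w` -/
def wd {H : Type} [Group H] (x : Fin 6 → H) : H := cj (x 2) (x 0) * cj (x 3) (x 1)

lemma map_wd {H K : Type} [Group H] [Group K] (f : H →* K) (x : Fin 6 → H) :
    f (wd x) = wd (fun i => f (x i)) := by
  simp [wd, map_cj]

/-- the two relators `x₁⁻¹ v₁(w)`, `x₂⁻¹ v₂(w)` -/
def rels : Set (FreeGroup (Fin 6)) :=
  {(FreeGroup.of 0)⁻¹ * cj (FreeGroup.of 4) (wd FreeGroup.of),
    (FreeGroup.of 1)⁻¹ * cj (FreeGroup.of 5) (wd FreeGroup.of)}

abbrev G0 : Type := PresentedGroup rels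

/-- the six generators -/
def X : Fin 6 → G0 := PresentedGroup.of

/-- the five generators -/
def Y : Fin 5 → G0 := ![wd X, X 2, X 3, X 4, X 5]

lemma rel0 : X 0 = cj (X 4) (wd X) := by
  have h : PresentedGroup.mk rels ((FreeGroup.of 0)⁻¹ * cj (FreeGroup.of 4) (wd FreeGroup.of)) = 1 := by
    rw [PresentedGroup.mk_eq_one_iff]
    exact Subgroup.subset_normalClosure (by simp [rels])
  rw [map_mul, map_inv, map_cj, map_wd] at h
  exact inv_mul_eq_one.1 h

lemma rel1 : X 1 = cj (X 5) (wd X) := by
  have h : PresentedGroup.mk rels ((FreeGroup.of 1)⁻¹ * cj (FreeGroup.of 5) (wd FreeGroup.of)) = 1 := by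
    rw [PresentedGroup.mk_eq_one_iff]
    exact Subgroup.subset_normalClosure (by simp [rels])
  rw [map_mul, map_inv, map_cj, map_wd] at h
  exact inv_mul_eq_one.1 h

lemma closure_X : Subgroup.closure (Set.range X) = ⊤ := PresentedGroup.closure_range_of rels

lemma closure_Y : Subgroup.closure (Set.range Y) = ⊤ := by
  rw [eq_top_iff, ← closure_X, Subgroup.closure_le]
  have hY : ∀ j, Y j ∈ Subgroup.closure (Set.range Y) := fun j =>
    Subgroup.subset_closure ⟨j, rfl⟩
  have hw : wd X ∈ Subgroup.closure (Set.range Y) := hY 0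
  have h2 : X 2 ∈ Subgroup.closure (Set.range Y) := hY 1
  have h3 : X 3 ∈ Subgroup.closure (Set.range Y) := hY 2
  have h4 : X 4 ∈ Subgroup.closure (Set.range Y) := hY 3
  have h5 : X 5 ∈ Subgroup.closure (Set.range Y) := hY 4
  have hcj : ∀ t x, t ∈ Subgroup.closure (Set.range Y) → x ∈ Subgroup.closure (Set.range Y) →
      cj t x ∈ Subgroup.closure (Set.range Y) := by
    intro t x ht hx
    exact mul_mem (mul_mem (mul_mem ht hx) (inv_mem ht)) (mul_mem (mul_mem (inv_mem ht) hx) ht)
  rintro _ ⟨i, rfl⟩
  fin_cases i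
  · change X 0 ∈ _
    rw [rel0]
    exact hcj _ _ h4 hw
  · change X 1 ∈ _
    rw [rel1]
    exact hcj _ _ h5 hw
  · exact h2
  · exact h3
  · exact h4
  · exact h5

/-- images of the six generators in the affine group -/
def imX : Fin 6 → Aff R0 6 :=
  ![Aff.tr (Pi.single 0 1), Aff.tr (Pi.single 1 1), ⟨Pi.single 2 1, U (al false)⟩,
    ⟨Pi.single 3 1, U (al true)⟩, ⟨Pi.single 4 1, U (be false)⟩, ⟨Pi.single 5 1, U (be true)⟩]

lemma wd_imX : wd imX = Aff.tr
    ((((U (al false) : R0ˣ) : R0) + (((U (al false))⁻¹ : R0ˣ) : R0)) • (Pi.single 0 1) +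
     (((U (al true) : R0ˣ) : R0) + (((U (al true))⁻¹ : R0ˣ) : R0)) • (Pi.single 1 1)) := by
  rw [← Aff.tr_mul_tr]
  change cj (imX 2) (Aff.tr _) * cj (imX 3) (Aff.tr _) = _
  rw [cj, cj, Aff.conj_tr, Aff.conj_tr]
  rfl

lemma imX_rels : ∀ r ∈ rels, FreeGroup.lift imX r = 1 := by
  intro r hr
  rcases hr with rfl | rfl
  · rw [map_mul, map_inv, map_cj, map_wd, inv_mul_eq_one]
    simp only [FreeGroup.lift_apply_of]
    change imX 0 = cj (imX 4) (wd imX)
    rw [wd_imX, cj, Aff.conj_tr, smul_add, smul_smul, smul_smul]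
    change Aff.tr (Pi.single 0 1) = _
    congr 1
    rw [show (imX 4).u = U (be false) from rfl, U_be_al, U_be_al]
    simp
  · rw [map_mul, map_inv, map_cj, map_wd, inv_mul_eq_one]
    simp only [FreeGroup.lift_apply_of]
    change imX 1 = cj (imX 5) (wd imX)
    rw [wd_imX, cj, Aff.conj_tr, smul_add, smul_smul, smul_smul]
    change Aff.tr (Pi.single 1 1) = _
    congr 1
    rw [show (imX 5).u = U (be true) from rfl, U_be_al, U_be_al]
    simp

/-- the representation in the affine group -/
noncomputable def Phi : G0 →* Aff R0 6 := PresentedGroup.toGroup imX_rels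

lemma Phi_X (i : Fin 6) : Phi (X i) = imX i := PresentedGroup.toGroup.of imX_rels

/-- images of the generators in `(ZMod 7)^5` -/
def imF : Fin 6 → Multiplicative (Fin 5 → ZMod 7) :=
  ![Multiplicative.ofAdd (Pi.single 0 2), Multiplicative.ofAdd (Pi.single 0 2),
    Multiplicative.ofAdd (Pi.single 1 1), Multiplicative.ofAdd (Pi.single 2 1),
    Multiplicative.ofAdd (Pi.single 3 1), Multiplicative.ofAdd (Pi.single 4 1)]

lemma imF_rels : ∀ r ∈ rels, FreeGroup.lift imF r = 1 := by
  intro r hr
  rcases hr with rfl | rfl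
  · rw [map_mul, map_inv, map_cj, map_wd, inv_mul_eq_one]
    simp only [FreeGroup.lift_apply_of]
    decide +kernel
  · rw [map_mul, map_inv, map_cj, map_wd, inv_mul_eq_one]
    simp only [FreeGroup.lift_apply_of]
    decide +kernel

/-- the characters -/
noncomputable def psi : G0 →* Multiplicative (Fin 5 → ZMod 7) := PresentedGroup.toGroup imF_rels

lemma psi_X (i : Fin 6) : psi (X i) = imF i := PresentedGroup.toGroup.of imF_rels

lemma psi_Y (j : Fin 5) : Multiplicative.toAdd (psi (Y j)) = Pi.single j 1 := by
  fin_cases j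
  · change Multiplicative.toAdd (psi (wd X)) = _
    rw [map_wd]
    simp only [psi_X]
    decide +kernel
  · change Multiplicative.toAdd (psi (X 2)) = _
    rw [psi_X]; rfl
  · change Multiplicative.toAdd (psi (X 3)) = _
    rw [psi_X]; rfl
  · change Multiplicative.toAdd (psi (X 4)) = _
    rw [psi_X]; rfl
  · change Multiplicative.toAdd (psi (X 5)) = _
    rw [psi_X]; rfl

/-- There are a group `G`, an `m`, and a finitely generated free partial resolution `C` of length `m`
of `G` whose directed Euler characteristic is larger than the minimum `χ = χ_m(G)`, but whose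
`m`-th Fox ideal is not the whole group ring. -/
theorem result : ∃ (G : Type) (_ : Group G) (m : ℕ) (C : ChainData G) (χ : ℤ),
    IsPartialResolution C m ∧
    IsLeast {n : ℤ | ∃ D : ChainData G, IsPartialResolution D m ∧ dirEuler D m = n} χ ∧
    χ < dirEuler C m ∧ foxIdeal C m ≠ ⊤ := by
  have : Fact (Nat.Prime 7) := ⟨by norm_num⟩
  refine ⟨G0, inferInstance, 1, genData X, 4, genData_isPartialResolution X closure_X,
    ⟨⟨genData Y, genData_isPartialResolution Y closure_Y, ?_⟩, ?_⟩, ?_, ?_⟩
  · rw [genData_dirEuler]; norm_num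
  · rintro n ⟨D, hD, rfl⟩
    have := lower_bound D hD psi Y psi_Y
    norm_num at this
    exact this
  · rw [genData_dirEuler]; norm_num
  · intro h
    have h1 : (1 : MonoidAlgebra ℤ G0) ∈ foxIdeal (genData X) 1 := by rw [h]; trivial
    have h2 := foxIdeal_le_ker Phi X (by
      intro j
      rw [Phi_X]
      fin_cases j <;> rfl) h1
    rw [TwoSidedIdeal.mem_ker, map_one] at h2
    have h3 : (1 : S0) = 0 := by
      have h3 := congrFun (congrFun h2 0) 0
      simp at h3
    have h4 := congrFun (LinearMap.congr_fun h3 (fun _ => (1 : ℤ))) []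
    simp at h4

end Pool.Agent.Results.MP_cfa383_al.NonMinimalFox
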